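import Mathlib
import Pool.Agent.H38.TO.S8.H410R2.Iface3
import Pool.Agent.H38.TO.S8.H410R2.MStubs
import Pool.Agent.H38.LR.S8.H410R2.ENIface

/-! Project UN (helper25): coloured Maynard-Tao for the forms `N + α n + h`, uniformly in `N`.
Statements of the independent parts. -/

set_option autoImplicit false

namespace Pool.Agent.W25.UN

open Finset Filter Topology
open Pool.Agent.H410R2

/-- (OD) uniform version of `OneDim`: the primes `≤ D'` and the few primes of `Cl` are removed -/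
def OneDimU : Prop := ∀ (C c K : ℝ) (F : ℝ → ℝ), 0 < c →
  (∀ t ∈ Set.Icc 0 c, 0 ≤ F t ∧ F t ≤ K) →
  (∀ s ∈ Set.Icc 0 c, ∀ t ∈ Set.Icc 0 c, |F s - F t| ≤ K * |s - t|) →
  ∀ (h : ℕ → ℝ) (D₀ : ℕ), (∀ p : ℕ, p.Prime → D₀ < p → |h p - 1 / p| ≤ C / (p : ℝ) ^ 2) →
  ∀ (ε B C' δ : ℝ), 0 < ε → 0 < δ → ∀ᶠ L : ℝ in atTop, ∀ (D' : ℕ) (Cl P : Finset ℕ),
    L ^ 2 ≤ (D' : ℝ) → (D' : ℝ) ≤ L ^ B → (Cl.card : ℝ) ≤ C' * L → (∀ p ∈ P, p.Prime ∧ D' < p) →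
    (∀ p : ℕ, p.Prime → D' < p → (p : ℝ) ≤ Real.exp ((c + δ) * L) → p ∉ Cl → p ∈ P) →
      |SS P h c L F - BD D' * L * ∫ t in (0 : ℝ)..c, F t| ≤ ε * (BD D' * L)

section
variable {ι J : Type} [Fintype ι] [DecidableEq ι] [Fintype J] [DecidableEq J]

/-- local Gram matrix of the first sum (the same as `Pool.Agent.H361R2.G1`) -/
noncomputable def g1 (p : ℕ) : Option J → Option J → ℝ
  | none, none => 1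
  | none, some _ => 0
  | some _, none => 0
  | some j, some l => if j = l then (p : ℝ) - 1 else -1

/-- the model quadratic form of the first sum -/
noncomputable def Q1f (pr : ι → ℕ) (c : (ι → Option J) → ℝ) : ℝ :=
  ∑ σ : ι → Option J, ∑ τ : ι → Option J, c σ * c τ * ∏ t, g1 (pr t) (σ t) (τ t)

end

/-- only the primes of the sieve divide `q` -/
def Over {ι : Type} (pr : ι → ℕ) (q : ℕ) : Prop := ∀ p : ℕ, p.Prime → p ∣ q → ∃ t, pr t = p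

open Classical in
/-- (S1G) the square of the sieve weight against an arbitrary equidistributed weight -/
def S1Gen : Prop := ∀ (ι J : Type) [Fintype ι] [Fintype J] (pr : ι → ℕ) (L : J → ℕ → ℕ),
  SieveData ι J pr L 1 → ∀ c : (ι → Option J) → ℝ,
    0 ≤ Q1f pr c ∧ Q1f pr c ≤ ∑ σ, c σ ^ 2 * mulc pr (fun p => (p : ℝ)) σ ∧
    ∀ (S : Finset ℕ) (wt : ℕ → ℝ) (K Dv : ℝ), 0 ≤ Dv →
      (∀ q : ℕ, Squarefree q → Over pr q → ∀ r : ℕ,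
        |∑ n ∈ S.filter (fun n => n ≡ r [MOD q]), wt n - K / q| ≤ Dv) →
      |∑ n ∈ S, wt n * (∑ σ, c σ * hN L pr σ n) ^ 2 - K * Q1f pr c| ≤
        Dv * (∑ σ, |c σ| * mulc pr (fun p => (p : ℝ) + 1) σ) ^ 2

open Classical in
/-- (S2G) the same for a weight supported on the `n` with `L i n` free of sieve primes -/
def S2Gen : Prop := ∀ (ι J : Type) [Fintype ι] [Fintype J] (pr : ι → ℕ) (L : J → ℕ → ℕ) (i : J),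
  SieveData ι J pr L 1 → ∀ (c : (ι → Option J) → ℝ) (R : ℝ), 1 ≤ R →
  (∀ σ, |c σ| ≤ mulc pr (fun p => 1 / ((p : ℝ) - 1)) σ) →
  (∀ σ, c σ ≠ 0 → mulc pr (fun p => (p : ℝ)) σ ≤ R) →
  ∀ (S : Finset ℕ) (wt : ℕ → ℝ) (K : ℝ) (Dev : ℕ → ℝ), (∀ q, 0 ≤ Dev q) →
    (∀ q : ℕ, Squarefree q → Over pr q → ∀ r : ℕ, (∀ p : ℕ, p.Prime → p ∣ q → ¬ p ∣ L i r) →
      |∑ n ∈ S.filter (fun n => n ≡ r [MOD q]), wt n - K / (Nat.totient q : ℝ)| ≤ Dev q) →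
    |∑ n ∈ S, wt n * (∑ σ, c σ * hNI i L pr σ n) ^ 2 - K * QI i pr c| ≤
      (∏ t, (1 + (Fintype.card J : ℝ) / ((pr t : ℝ) - 1)) * ((pr t : ℝ) / ((pr t : ℝ) - 1))) ^ 2 *
      ∑ q ∈ (Icc 1 ⌊R ^ 2⌋₊).filter (fun q => Squarefree q ∧ Over pr q),
        (3 * (Fintype.card J : ℝ)) ^ q.primeFactors.card * Dev q

open Classical in
/-- (FLA) the fundamental lemma with residue classes -/
def FLA : Prop := ∀ κ : ℕ, ∃ C0 : ℕ, 1 ≤ C0 ∧ ∀ (b J z0 : ℕ) (P : Finset ℕ) (g : ℕ → ℝ)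
  (Om : ℕ → Finset ℕ), C0 ≤ b → C0 ≤ z0 → (∀ p ∈ P, p.Prime ∧ z0 < p ∧ p ≤ 2 ^ 2 ^ J) →
  (∀ p ∈ P, (Om p).card ≤ κ) → (∀ p ∈ P, 0 ≤ g p ∧ g p ≤ 1 / ((p : ℝ) - 1)) →
  ∀ (S : Finset ℕ) (w : ℕ → ℝ) (A : ℝ) (err : ℕ → ℝ), (∀ n ∈ S, 0 ≤ w n) → 0 ≤ A →
    (∀ m, 0 ≤ err m) → (∀ T ⊆ P, ∏ p ∈ T, p ≤ (2 ^ 2 ^ J) ^ (C0 * b) → ∀ c : ℕ → ℕ, (∀ p ∈ T, c p ∈ Om p) →
      |∑ n ∈ S.filter (fun n => ∀ p ∈ T, n % p = c p), w n - A * ∏ p ∈ T, g p| ≤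
        err (∏ p ∈ T, p)) →
    |∑ n ∈ S.filter (fun n => ∀ p ∈ P, n % p ∉ Om p), w n -
        A * ∏ p ∈ P, (1 - ((Om p).card : ℝ) * g p)| ≤
      (1 / 2 : ℝ) ^ b * (A * ∏ p ∈ P, (1 - ((Om p).card : ℝ) * g p)) +
        ((J : ℝ) + 2) *
          ∑ T ∈ P.powerset.filter (fun T : Finset ℕ => ∏ p ∈ T, p ≤ (2 ^ 2 ^ J) ^ (C0 * b)),
            (κ : ℝ) ^ T.card * err (∏ p ∈ T, p)

/-- logarithmic tent -/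
noncomputable def tn (x0 κ y : ℝ) : ℝ := max 0 (1 - |Real.log (y / x0)| / κ)

/-- linear tent -/
noncomputable def lt (c Δ r : ℝ) : ℝ := max 0 (1 - |r - c| / Δ)

/-- mass of the logarithmic tent -/
noncomputable def ts (x0 κ : ℝ) : ℝ := x0 / κ * (Real.exp κ - 2 + Real.exp (-κ))

/-- (TN) tents -/
def Tents : Prop :=
  (∀ x0 κ y : ℝ, 0 < x0 → 0 < κ → 0 < y → tn x0 κ y =
    1 / κ * (max 0 (Real.log (x0 * Real.exp κ / y)) - 2 * max 0 (Real.log (x0 / y)) +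
      max 0 (Real.log (x0 * Real.exp (-κ) / y)))) ∧
  (∀ x0 κ y : ℝ, 0 < x0 → 0 < κ → κ ≤ 1 / 16 → 0 < y →
    |tn x0 κ y - lt x0 (κ * x0) y| ≤ 3 * κ * tn x0 (4 * κ) y) ∧
  (∀ x0 κ : ℝ, 0 < x0 → 0 < κ → κ ≤ 1 → κ * x0 ≤ ts x0 κ ∧ ts x0 κ ≤ κ * x0 * (1 + κ ^ 2)) ∧
  (∀ (x0 κ : ℝ) (X : ℕ), 0 < κ → 1 ≤ x0 * Real.exp (-κ) → x0 * Real.exp κ ≤ X →
    ∀ m r : ℕ, 1 ≤ m →
      |∑ n ∈ (Icc 1 X).filter (fun n => n ≡ r [MOD m]), tn x0 κ n - ts x0 κ / m| ≤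
        4 / κ * (Real.log (x0 * Real.exp κ) + 1))

open Classical in
/-- (PS1) presieved first sum -/
def PS1 : Prop := ∀ κ : ℕ, ∃ C0 : ℕ, 1 ≤ C0 ∧ ∀ (ι J : Type) [Fintype ι] [Fintype J]
  (pr : ι → ℕ) (L : J → ℕ → ℕ) (b Jj z0 : ℕ) (P : Finset ℕ) (Om : ℕ → Finset ℕ) (W v : ℕ),
  SieveData ι J pr L 1 → C0 ≤ b → C0 ≤ z0 → (∀ p ∈ P, p.Prime ∧ z0 < p ∧ p ≤ 2 ^ 2 ^ Jj) →
  (∀ p ∈ P, (Om p).card ≤ κ ∧ ∀ c ∈ Om p, c < p) → 1 ≤ W → (∀ p ∈ P, p.Coprime W) →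
  (∀ t, pr t ∉ P ∧ (pr t).Coprime W) →
  ∀ (c : (ι → Option J) → ℝ) (S : Finset ℕ) (wt : ℕ → ℝ) (K Dv : ℝ), (∀ n ∈ S, 0 ≤ wt n) →
    0 ≤ K → 0 ≤ Dv →
    (∀ m : ℕ, 1 ≤ m → ∀ r : ℕ, |∑ n ∈ S.filter (fun n => n ≡ r [MOD m]), wt n - K / m| ≤ Dv) →
    |∑ n ∈ S.filter (fun n => n ≡ v [MOD W] ∧ ∀ p ∈ P, n % p ∉ Om p),
        wt n * (∑ σ, c σ * hN L pr σ n) ^ 2 -
      K / W * Q1f pr c * ∏ p ∈ P, (1 - ((Om p).card : ℝ) / p)| ≤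
      (1 / 2 : ℝ) ^ b * (K / W * Q1f pr c * ∏ p ∈ P, (1 - ((Om p).card : ℝ) / p)) +
        ((Jj : ℝ) + 2) * ((2 : ℝ) ^ 2 ^ Jj) ^ (2 * (C0 * b)) *
          (Dv * (∑ σ, |c σ| * mulc pr (fun p => (p : ℝ) + 1) σ) ^ 2)

open Classical in
/-- (PS2) presieved second sum -/
def PS2 : Prop := ∀ κ : ℕ, ∃ C0 : ℕ, 1 ≤ C0 ∧ ∀ (ι J : Type) [Fintype ι] [Fintype J]
  (pr : ι → ℕ) (L : J → ℕ → ℕ) (i : J) (b Jj z0 : ℕ) (P : Finset ℕ) (Om : ℕ → Finset ℕ)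
  (W v : ℕ), κ ≤ 3 * Fintype.card J →
  SieveData ι J pr L 1 → C0 ≤ b → C0 ≤ z0 → (∀ p ∈ P, p.Prime ∧ z0 < p ∧ p ≤ 2 ^ 2 ^ Jj) →
  (∀ p ∈ P, (Om p).card ≤ κ ∧ ∀ c ∈ Om p, c < p ∧ ∀ n, n % p = c → ¬ p ∣ L i n) → 1 ≤ W →
  (∀ p ∈ P, p.Coprime W) → (∀ t, pr t ∉ P ∧ (pr t).Coprime W) →
  (∀ n, n ≡ v [MOD W] → (L i n).Coprime W) →
  ∀ (c : (ι → Option J) → ℝ) (R : ℝ), 1 ≤ R → 0 ≤ QI i pr c →
  (∀ σ, |c σ| ≤ mulc pr (fun p => 1 / ((p : ℝ) - 1)) σ) →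
  (∀ σ, c σ ≠ 0 → mulc pr (fun p => (p : ℝ)) σ ≤ R) →
  ∀ (S : Finset ℕ) (wt : ℕ → ℝ) (K : ℝ) (Dev : ℕ → ℝ), (∀ n ∈ S, 0 ≤ wt n) → 0 ≤ K →
    (∀ m, 0 ≤ Dev m) →
    (∀ m : ℕ, Squarefree m → m.Coprime W → ∀ r : ℕ, (L i r).Coprime (W * m) →
      |∑ n ∈ S.filter (fun n => n ≡ r [MOD W * m]), wt n - K / (Nat.totient (W * m) : ℝ)| ≤
        Dev m) →
    |∑ n ∈ S.filter (fun n => n ≡ v [MOD W] ∧ ∀ p ∈ P, n % p ∉ Om p),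
        wt n * (∑ σ, c σ * hNI i L pr σ n) ^ 2 -
      K / (Nat.totient W : ℝ) * QI i pr c * ∏ p ∈ P, (1 - ((Om p).card : ℝ) / ((p : ℝ) - 1))| ≤
      (1 / 2 : ℝ) ^ b * (K / (Nat.totient W : ℝ) * QI i pr c *
        ∏ p ∈ P, (1 - ((Om p).card : ℝ) / ((p : ℝ) - 1))) +
      ((Jj : ℝ) + 2) *
      ((∏ t, (1 + (Fintype.card J : ℝ) / ((pr t : ℝ) - 1)) * ((pr t : ℝ) / ((pr t : ℝ) - 1))) ^ 2 *
      ∑ m ∈ (Icc 1 ⌊((2 : ℝ) ^ 2 ^ Jj) ^ (C0 * b) * R ^ 2⌋₊).filter Squarefree,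
        (3 * (Fintype.card J : ℝ)) ^ m.primeFactors.card * Dev m)

/-- (VL) crude lower bounds -/
def VLow : Prop := ∀ (κ D' : ℕ) (P : Finset ℕ) (ν : ℕ → ℕ), 1 ≤ D' →
  (∀ p ∈ P, p.Prime ∧ 2 * κ < p ∧ p ≤ D' ∧ ν p ≤ κ) →
  (1 / (D' : ℝ)) ^ (2 * κ) ≤ ∏ p ∈ P, (1 - (ν p : ℝ) / p) ∧ 1 / (D' : ℝ) ≤ BD D'

/-- the forms `N + α i * n + h i` -/
def Fm {k : ℕ} (α h : Fin k → ℤ) (N : ℕ) (i : Fin k) (n : ℤ) : ℤ := N + α i * n + h i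

open Classical in
/-- (U) the uniform coloured theorem -/
def ThmU : Prop := ∀ T M : ℕ, 4 * M < T → ∃ K : ℕ, 2 ≤ K ∧
  ∀ (α h : Fin (T * K) → ℤ) (cl : Fin (T * K) → Fin T),
    (∀ g, (univ.filter (fun i => cl i = g)).card = K) → (∀ i, α i ≠ 0) →
    (∀ i j, i ≠ j → ¬ (α i = α j ∧ h i = h j)) →
    ∀ η : ℝ, 0 < η → ∀ᶠ N : ℕ in atTop,
      (∀ p : ℕ, p.Prime → ∃ n : ℤ, ¬ (p : ℤ) ∣ n ∧ ∀ i, ¬ (p : ℤ) ∣ Fm α h N i n) →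
      (N : ℝ) ^ (1 - η) ≤ (((Icc 1 N).filter (fun n : ℕ =>
        M + 1 ≤ (univ.filter (fun g : Fin T => ∃ i, cl i = g ∧
          (Fm α h N i n).toNat.Prime)).card)).card : ℝ)

open Classical in
/-- (E5) for every large `N` one of five binary equations with bounded defect has many solutions in
primes: `p + q = 2 N + c`, `2 p - q = N + c`, `2 p + q = 3 N + c`, `4 p - q = 3 N + c`,
`4 p + q = 5 N + c` -/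
def FiveEq : Prop := ∃ C : ℕ, ∀ η : ℝ, 0 < η → ∀ᶠ N : ℕ in atTop,
  ∃ a ∈ ({(1, 1, 2), (2, -1, 1), (2, 1, 3), (4, -1, 3), (4, 1, 5)} : Finset (ℤ × ℤ × ℤ)),
    ∃ c : ℤ, |c| ≤ C ∧ (N : ℝ) ^ (1 - η) ≤ (((Icc 1 (6 * N)).filter (fun p : ℕ =>
      p.Prime ∧ ∃ q : ℕ, q.Prime ∧ a.1 * (p : ℤ) + a.2.1 * (q : ℤ) = a.2.2 * (N : ℤ) + c)).card : ℝ)

end Pool.Agent.W25.UN
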